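import Pool.Agent.K6.H34.PA.QE

/-!
# Formulas about vectors

The parameters are indexed by `ℝ`, and there are `n` further variables in `W ^ d`.
-/

set_option autoImplicit false

namespace Pool.Agent.K6.H34.PA

/-- Variables: parameters and the coordinates of `n` vectors. -/
abbrev Ctx (d n : ℕ) : Type := ℝ ⊕ (Fin n × Fin d)

/-- Values of the variables. -/
def val {W : Type} {d n : ℕ} (e : ℝ → W) (X : Fin n → Fin d → W) : Ctx d n → W :=
  Sum.elim e fun p => X p.1 p.2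

namespace QF

variable {d n m : ℕ} {W : Type} [Field W] [LinearOrder W]

/-- Renaming the vectors. -/
def ren (σ : Fin n → Fin m) (φ : QF (Ctx d n)) : QF (Ctx d m) := φ.map (Sum.map id (Prod.map σ id))

@[simp] theorem ev_ren (σ : Fin n → Fin m) (φ : QF (Ctx d n)) (e : ℝ → W) (X : Fin m → Fin d → W) :
    (φ.ren σ).ev (val e X) ↔ φ.ev (val e fun i => X (σ i)) := by
  unfold ren
  rw [ev_map]
  have : val e X ∘ Sum.map id (Prod.map σ id) = val e fun i => X (σ i) := by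
    funext i; rcases i with i | i <;> rfl
  rw [this]

/-- A formula about one vector. -/
def at' (i : Fin n) (φ : QF (ℝ ⊕ Fin d)) : QF (Ctx d n) := φ.map (Sum.map id fun k => (i, k))

@[simp] theorem ev_at (i : Fin n) (φ : QF (ℝ ⊕ Fin d)) (e : ℝ → W) (X : Fin n → Fin d → W) :
    (φ.at' i).ev (val e X) ↔ φ.ev (Sum.elim e (X i)) := by
  unfold at'
  rw [ev_map]
  have : val e X ∘ Sum.map id (fun k => (i, k)) = Sum.elim e (X i) := by
    funext j; rcases j with j | j <;> rfl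
  rw [this]

/-- Existential quantifier over a vector (which becomes the vector `0`). -/
noncomputable def exV (φ : QF (Ctx d (n + 1))) : QF (Ctx d n) :=
  Classical.choose (exists_fin d (φ.map (Sum.elim (fun c => Sum.inl (Sum.inl c))
    (fun p => Fin.cases (motive := fun _ => (ℝ ⊕ (Fin n × Fin d)) ⊕ Fin d) (Sum.inr p.2)
      (fun i => Sum.inl (Sum.inr (i, p.2))) p.1) : Ctx d (n + 1) → Ctx d n ⊕ Fin d)))

@[simp] theorem ev_exV [IsStrictOrderedRing W] (φ : QF (Ctx d (n + 1))) (e : ℝ → W)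
    (X : Fin n → Fin d → W) :
    (exV φ).ev (val e X) ↔ ∃ z : Fin d → W, φ.ev (val e (Fin.cons z X)) := by
  unfold exV
  rw [Classical.choose_spec (exists_fin d (φ.map (Sum.elim (fun c => Sum.inl (Sum.inl c))
    (fun p => Fin.cases (motive := fun _ => (ℝ ⊕ (Fin n × Fin d)) ⊕ Fin d) (Sum.inr p.2)
      (fun i => Sum.inl (Sum.inr (i, p.2))) p.1) : Ctx d (n + 1) → Ctx d n ⊕ Fin d))) W]
  refine exists_congr fun z => ?_
  rw [ev_map]
  have : Sum.elim (val e X) z ∘ (Sum.elim (fun c => Sum.inl (Sum.inl c))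
    (fun p => Fin.cases (motive := fun _ => (ℝ ⊕ (Fin n × Fin d)) ⊕ Fin d) (Sum.inr p.2)
      (fun i => Sum.inl (Sum.inr (i, p.2))) p.1) : Ctx d (n + 1) → Ctx d n ⊕ Fin d) =
      val e (Fin.cons z X) := by
    funext j
    rcases j with j | ⟨i, k⟩
    · rfl
    · refine Fin.cases ?_ (fun i => ?_) i
      · rfl
      · rfl
  rw [this]

/-- Universal quantifier over a vector. -/
noncomputable def allV (φ : QF (Ctx d (n + 1))) : QF (Ctx d n) := neg (exV (neg φ))

@[simp] theorem ev_allV [IsStrictOrderedRing W] (φ : QF (Ctx d (n + 1))) (e : ℝ → W)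
    (X : Fin n → Fin d → W) :
    (allV φ).ev (val e X) ↔ ∀ z : Fin d → W, φ.ev (val e (Fin.cons z X)) := by
  simp [allV]

theorem ev_bigAnd_map {ι α : Type} (f : α → QF ι) (l : List α) (x : ι → W) :
    (bigAnd (l.map f)).ev x ↔ ∀ a ∈ l, (f a).ev x := by
  simp

theorem ev_bigAnd_fin {ι : Type} {k : ℕ} (f : Fin k → QF ι) (x : ι → W) :
    (bigAnd ((List.finRange k).map f)).ev x ↔ ∀ a, (f a).ev x := by
  simp

/-- The equation `t = 0`. -/
def zer {ι : Type} (t : Tm ι) : QF ι := and (neg (pos t)) (neg (pos (Tm.smul (-1) t)))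

@[simp] theorem ev_zer {ι : Type} [IsStrictOrderedRing W] (t : Tm ι) (x : ι → W) :
    (zer t).ev x ↔ t.ev x = 0 := by
  simp only [zer, ev_and, ev, Tm.ev]
  push_cast
  constructor
  · rintro ⟨h1, h2⟩
    push Not at h1 h2
    linarith
  · intro h; rw [h]; simp

end QF

/-- Sum of terms. -/
def Tm.sumF {ι : Type} {d : ℕ} (f : Fin d → Tm ι) : Tm ι :=
  ((List.finRange d).map f).foldr Tm.add (Tm.const 0)

theorem Tm.ev_sumF {ι : Type} {d : ℕ} {W : Type} [Field W] [CharZero W] (f : Fin d → Tm ι) (x : ι → W) :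
    (Tm.sumF f).ev x = ∑ i, (f i).ev x := by
  have : ∀ l : List (Fin d), ((l.map f).foldr Tm.add (Tm.const 0)).ev x = (l.map fun i => (f i).ev x).sum := by
    intro l
    induction l with
    | nil => simp [Tm.ev]
    | cons a l ih => simp [Tm.ev, ih]
  unfold Tm.sumF
  rw [this, ← Fin.sum_univ_def]

/-- Semilinear subsets of `ℝ ^ d`: finite Boolean combinations of half-spaces
`{x | 0 < ∑ a i * x i + c}` with rational coefficients `a i` and real constants `c`. -/
inductive SL (d : ℕ) : Set (Fin d → ℝ) → Prop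
  | half (a : Fin d → ℚ) (c : ℝ) : SL d {x | 0 < ∑ i, (a i : ℝ) * x i + c}
  | compl {S : Set (Fin d → ℝ)} : SL d S → SL d Sᶜ
  | inter {S T : Set (Fin d → ℝ)} : SL d S → SL d T → SL d (S ∩ T)

theorem SL.formula {d : ℕ} {S : Set (Fin d → ℝ)} (h : SL d S) :
    ∃ φ : QF (ℝ ⊕ Fin d), ∀ x, x ∈ S ↔ φ.ev (Sum.elim id x) := by
  induction h with
  | half a c =>
    refine ⟨QF.pos (Tm.add (Tm.sumF fun i => Tm.smul (a i) (Tm.var (Sum.inr i))) (Tm.var (Sum.inl c))),
      fun x => ?_⟩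
    simp [QF.ev, Tm.ev, Tm.ev_sumF]
  | compl _ ih =>
    obtain ⟨φ, h⟩ := ih
    exact ⟨QF.neg φ, fun x => by simp [h]⟩
  | inter _ _ ih1 ih2 =>
    obtain ⟨φ, h⟩ := ih1
    obtain ⟨ψ, h'⟩ := ih2
    exact ⟨QF.and φ ψ, fun x => by simp [h, h']⟩

/-- A piece of a map: a cell, a matrix and a vector. -/
structure Piece (d : ℕ) where
  /-- the cell -/
  C : QF (ℝ ⊕ Fin d)
  /-- the linear part -/
  A : Matrix (Fin d) (Fin d) ℤ
  /-- the translation -/
  b : Fin d → ℝ

/-- `x` is in the set with the formula `φ`. -/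
def InS {d : ℕ} {W : Type} [Field W] [LinearOrder W] (φ : QF (ℝ ⊕ Fin d)) (e : ℝ → W) (x : Fin d → W) :
    Prop := φ.ev (Sum.elim e x)

/-- The graph of a piecewise affine map. -/
def Gr {d : ℕ} {W : Type} [Field W] [LinearOrder W] (φ : QF (ℝ ⊕ Fin d)) (P : List (Piece d))
    (e : ℝ → W) (x y : Fin d → W) : Prop :=
  InS φ e x ∧ InS φ e y ∧ ∀ p ∈ P, InS p.C e x → ∀ k, ∑ l, (p.A k l : W) * x l + e (p.b k) - y k = 0

/-- Formula for the graph. -/
def grF {d : ℕ} (φ : QF (ℝ ⊕ Fin d)) (P : List (Piece d)) : QF (Ctx d 2) :=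
  QF.and (φ.at' 0) (QF.and (φ.at' 1) (QF.bigAnd (P.map fun p => QF.imp (p.C.at' 0)
    (QF.bigAnd ((List.finRange d).map fun k => QF.zer
      (Tm.add (Tm.add (Tm.sumF fun l => Tm.smul (p.A k l : ℚ) (Tm.var (Sum.inr (0, l))))
        (Tm.var (Sum.inl (p.b k)))) (Tm.smul (-1) (Tm.var (Sum.inr (1, k))))))))))

theorem ev_grF {d : ℕ} {W : Type} [Field W] [LinearOrder W] [IsStrictOrderedRing W]
    (φ : QF (ℝ ⊕ Fin d)) (P : List (Piece d)) (e : ℝ → W) (X : Fin 2 → Fin d → W) :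
    (grF φ P).ev (val e X) ↔ Gr φ P e (X 0) (X 1) := by
  simp only [grF, Gr, InS, QF.ev_and, QF.ev_at, QF.ev_bigAnd_map, QF.ev_imp, QF.ev_zer,
    Tm.ev, Tm.ev_sumF]
  refine and_congr Iff.rfl (and_congr Iff.rfl ?_)
  refine forall_congr' fun p => forall_congr' fun hp => forall_congr' fun _ => forall_congr' fun k => ?_
  have : (∑ l, ((p.A k l : ℚ) : W) * val e X (Sum.inr (0, l)) + val e X (Sum.inl (p.b k)) +
      ((-1 : ℚ) : W) * val e X (Sum.inr (1, k))) = ∑ l, (p.A k l : W) * X 0 l + e (p.b k) - X 1 k := by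
    simp [val, sub_eq_add_neg]
  rw [this]
  simp

/-- The relation `y = w x` for a word `w`. -/
def Rel {d m : ℕ} {W : Type} [Field W] [LinearOrder W] (φ : QF (ℝ ⊕ Fin d)) (P : Fin m → List (Piece d))
    (e : ℝ → W) : List (Fin m × Bool) → (Fin d → W) → (Fin d → W) → Prop
  | [], x, y => InS φ e x ∧ x = y
  | (i, true) :: L, x, y => ∃ z, Rel φ P e L x z ∧ Gr φ (P i) e z y
  | (i, false) :: L, x, y => ∃ z, Rel φ P e L x z ∧ Gr φ (P i) e y z

/-- Formula for this relation. -/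
noncomputable def relF {d m : ℕ} (φ : QF (ℝ ⊕ Fin d)) (P : Fin m → List (Piece d)) :
    List (Fin m × Bool) → QF (Ctx d 2)
  | [] => QF.and (φ.at' 0) (QF.bigAnd ((List.finRange d).map fun k => QF.zer
      (Tm.add (Tm.var (Sum.inr (0, k))) (Tm.smul (-1) (Tm.var (Sum.inr (1, k)))))))
  | (i, true) :: L => QF.exV (QF.and ((relF φ P L).ren ![1, 0]) ((grF φ (P i)).ren ![0, 2]))
  | (i, false) :: L => QF.exV (QF.and ((relF φ P L).ren ![1, 0]) ((grF φ (P i)).ren ![2, 0]))

theorem ev_relF {d m : ℕ} {W : Type} [Field W] [LinearOrder W] [IsStrictOrderedRing W]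
    (φ : QF (ℝ ⊕ Fin d)) (P : Fin m → List (Piece d)) (e : ℝ → W) (L : List (Fin m × Bool)) :
    ∀ X : Fin 2 → Fin d → W, (relF φ P L).ev (val e X) ↔ Rel φ P e L (X 0) (X 1) := by
  induction L with
  | nil =>
    intro X
    simp only [relF, Rel, InS, QF.ev_and, QF.ev_at, QF.ev_bigAnd_fin, QF.ev_zer, Tm.ev]
    refine and_congr Iff.rfl ?_
    rw [funext_iff]
    refine forall_congr' fun k => ?_
    show X 0 k + ((-1 : ℚ) : W) * X 1 k = 0 ↔ X 0 k = X 1 k
    push_cast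
    constructor <;> intro h <;> linarith
  | cons a L ih =>
    intro X
    obtain ⟨i, b⟩ := a
    cases b with
    | true =>
      simp only [relF, Rel, QF.ev_exV, QF.ev_and, QF.ev_ren, ih, ev_grF]
      exact Iff.rfl
    | false =>
      simp only [relF, Rel, QF.ev_exV, QF.ev_and, QF.ev_ren, ih, ev_grF]
      exact Iff.rfl

/-- Equality of two vectors. -/
def eqV {d n : ℕ} (i j : Fin n) : QF (Ctx d n) :=
  QF.bigAnd ((List.finRange d).map fun k => QF.zer
      (Tm.add (Tm.var (Sum.inr (i, k))) (Tm.smul (-1) (Tm.var (Sum.inr (j, k))))))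

theorem ev_eqV {d n : ℕ} {W : Type} [Field W] [LinearOrder W] [IsStrictOrderedRing W] (i j : Fin n)
    (e : ℝ → W) (X : Fin n → Fin d → W) : (eqV i j).ev (val e X) ↔ X i = X j := by
  simp only [eqV, QF.ev_bigAnd_fin, QF.ev_zer, Tm.ev]
  rw [funext_iff]
  refine forall_congr' fun k => ?_
  show X i k + ((-1 : ℚ) : W) * X j k = 0 ↔ X i k = X j k
  push_cast
  constructor <;> intro h <;> linarith

/-- The properties to be transferred. -/
structure Good {d m : ℕ} {W : Type} [Field W] [LinearOrder W] (φ : QF (ℝ ⊕ Fin d))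
    (P : Fin m → List (Piece d)) (R : List (List (Fin m × Bool))) (w : List (Fin m × Bool)) (B : ℚ)
    (e : ℝ → W) : Prop where
  cover : ∀ i x, InS φ e x → ∃ p ∈ P i, InS p.C e x
  total : ∀ i x, InS φ e x → ∃ y, Gr φ (P i) e x y
  inj : ∀ i x x' y, Gr φ (P i) e x y → Gr φ (P i) e x' y → x = x'
  rel : ∀ r ∈ R, ∀ x y, Rel φ P e r x y → x = y
  ne : ∃ x y, Rel φ P e w x y ∧ x ≠ y
  bdd : ∀ x, InS φ e x → ∀ k, 0 < x k + (B : W) ∧ 0 < (B : W) + (-1) * x k

/-- Their formula. -/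
noncomputable def goodF {d m : ℕ} (φ : QF (ℝ ⊕ Fin d)) (P : Fin m → List (Piece d))
    (R : List (List (Fin m × Bool))) (w : List (Fin m × Bool)) (B : ℚ) : QF (Ctx d 0) :=
  QF.and (QF.bigAnd ((List.finRange m).map fun i =>
    QF.allV (QF.imp (φ.at' 0) (QF.bigOr ((P i).map fun p => p.C.at' 0)))))
  (QF.and (QF.bigAnd ((List.finRange m).map fun i =>
    QF.allV (QF.imp (φ.at' 0) (QF.exV ((grF φ (P i)).ren ![1, 0])))))
  (QF.and (QF.bigAnd ((List.finRange m).map fun i =>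
    QF.allV (QF.allV (QF.allV (QF.imp ((grF φ (P i)).ren ![2, 0])
      (QF.imp ((grF φ (P i)).ren ![1, 0]) (eqV 2 1)))))))
  (QF.and (QF.bigAnd (R.map fun r => QF.allV (QF.allV (QF.imp ((relF φ P r).ren ![1, 0]) (eqV 1 0)))))
  (QF.and (QF.exV (QF.exV (QF.and ((relF φ P w).ren ![1, 0]) (QF.neg (eqV 1 0)))))
    (QF.allV (QF.imp (φ.at' 0) (QF.bigAnd ((List.finRange d).map fun k =>
      QF.and (QF.pos (Tm.add (Tm.var (Sum.inr (0, k))) (Tm.const B)))
        (QF.pos (Tm.add (Tm.const B) (Tm.smul (-1) (Tm.var (Sum.inr (0, k)))))))))))))) 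

theorem ev_goodF {d m : ℕ} {W : Type} [Field W] [LinearOrder W] [IsStrictOrderedRing W]
    (φ : QF (ℝ ⊕ Fin d)) (P : Fin m → List (Piece d))
    (R : List (List (Fin m × Bool))) (w : List (Fin m × Bool)) (B : ℚ) (e : ℝ → W)
    (X : Fin 0 → Fin d → W) : (goodF φ P R w B).ev (val e X) ↔ Good φ P R w B e := by
  have h1 : (goodF φ P R w B).ev (val e X) ↔
      (∀ i : Fin m, ∀ x, InS φ e x → ∃ p ∈ P i, InS p.C e x) ∧
      (∀ i : Fin m, ∀ x, InS φ e x → ∃ y, Gr φ (P i) e x y) ∧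
      (∀ i : Fin m, ∀ x x' y, Gr φ (P i) e x y → Gr φ (P i) e x' y → x = x') ∧
      (∀ r ∈ R, ∀ x y, Rel φ P e r x y → x = y) ∧
      (∃ x y, Rel φ P e w x y ∧ x ≠ y) ∧
      (∀ x, InS φ e x → ∀ k, 0 < x k + (B : W) ∧ 0 < (B : W) + (-1) * x k) := by
    unfold goodF
    rw [QF.ev_and, QF.ev_and, QF.ev_and, QF.ev_and, QF.ev_and]
    refine and_congr ?_ (and_congr ?_ (and_congr ?_ (and_congr ?_ (and_congr ?_ ?_))))
    · rw [QF.ev_bigAnd_fin]
      refine forall_congr' fun i => ?_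
      rw [QF.ev_allV]
      refine forall_congr' fun x => ?_
      rw [QF.ev_imp, QF.ev_at, QF.ev_bigOr]
      simp only [List.mem_map, exists_exists_and_eq_and, QF.ev_at]
      exact Iff.rfl
    · rw [QF.ev_bigAnd_fin]
      refine forall_congr' fun i => ?_
      rw [QF.ev_allV]
      refine forall_congr' fun x => ?_
      rw [QF.ev_imp, QF.ev_at, QF.ev_exV]
      simp only [QF.ev_ren, ev_grF]
      exact Iff.rfl
    · rw [QF.ev_bigAnd_fin]
      refine forall_congr' fun i => ?_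
      rw [QF.ev_allV]
      refine forall_congr' fun x => ?_
      rw [QF.ev_allV]
      refine forall_congr' fun x' => ?_
      rw [QF.ev_allV]
      refine forall_congr' fun y => ?_
      rw [QF.ev_imp, QF.ev_imp, QF.ev_ren, QF.ev_ren, ev_grF, ev_grF, ev_eqV]
      exact Iff.rfl
    · rw [QF.ev_bigAnd_map]
      refine forall_congr' fun r => forall_congr' fun _ => ?_
      rw [QF.ev_allV]
      refine forall_congr' fun x => ?_
      rw [QF.ev_allV]
      refine forall_congr' fun y => ?_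
      rw [QF.ev_imp, QF.ev_ren, ev_relF, ev_eqV]
      exact Iff.rfl
    · rw [QF.ev_exV]
      refine exists_congr fun x => ?_
      rw [QF.ev_exV]
      refine exists_congr fun y => ?_
      rw [QF.ev_and, QF.ev_ren, QF.ev_neg, ev_relF, ev_eqV]
      exact Iff.rfl
    · rw [QF.ev_allV]
      refine forall_congr' fun x => ?_
      rw [QF.ev_imp, QF.ev_at, QF.ev_bigAnd_fin]
      refine imp_congr Iff.rfl (forall_congr' fun k => ?_)
      simp only [QF.ev_and, QF.ev, Tm.ev]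
      push_cast
      exact Iff.rfl
  rw [h1]
  constructor
  · rintro ⟨a, b, c, d, e, f⟩; exact ⟨a, b, c, d, e, f⟩
  · rintro ⟨a, b, c, d, e, f⟩; exact ⟨a, b, c, d, e, f⟩

/-- Transfer of these properties from `ℝ` to `ℚ`. -/
theorem Good.transfer {d m : ℕ} {φ : QF (ℝ ⊕ Fin d)} {P : Fin m → List (Piece d)}
    {R : List (List (Fin m × Bool))} {w : List (Fin m × Bool)} {B : ℚ} {e : ℝ → ℝ}
    (h : Good φ P R w B e) : ∃ e' : ℝ → ℚ, Good φ P R w B e' := by
  have h1 := (ev_goodF φ P R w B e fun i => i.elim0).2 h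
  obtain ⟨y, hy⟩ := QF.exists_rat _ _ h1
  refine ⟨fun c => y (Sum.inl c), (ev_goodF φ P R w B _ fun i => i.elim0).1 ?_⟩
  have : val (fun c => y (Sum.inl c)) (fun i : Fin 0 => (i.elim0 : Fin d → ℚ)) = y := by
    funext i
    rcases i with i | ⟨i, _⟩
    · rfl
    · exact i.elim0
  rw [this]
  exact hy

end Pool.Agent.K6.H34.PA
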