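import Pool.Agent.K6.H34.PA.Form

/-!
# Finite actions from piecewise integral affine actions
-/

set_option autoImplicit false

namespace Pool.Agent.K6.H34.PA

variable {d m : ℕ}

theorem exists_denom (S : List ℚ) : ∃ N : ℕ, 0 < N ∧ ∀ q ∈ S, ∃ z : ℤ, (N : ℚ) * q = z := by
  induction S with
  | nil => exact ⟨1, one_pos, by simp⟩
  | cons q S ih =>
    obtain ⟨N, hN, h⟩ := ih
    refine ⟨q.den * N, Nat.mul_pos q.den_pos hN, ?_⟩
    intro r hr
    rcases List.mem_cons.1 hr with rfl | hr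
    · refine ⟨N * r.num, ?_⟩
      push_cast
      have := Rat.den_mul_eq_num r
      calc (r.den : ℚ) * N * r = N * (r.den * r) := by ring
        _ = N * r.num := by rw [this]
    · obtain ⟨z, hz⟩ := h r hr
      refine ⟨q.den * z, ?_⟩
      push_cast
      rw [mul_assoc, hz]

section rat

variable {φ : QF (ℝ ⊕ Fin d)} {P : Fin m → List (Piece d)} {R : List (List (Fin m × Bool))}
  {w : List (Fin m × Bool)} {B : ℚ} {e : ℝ → ℚ}

/-- The points with denominator `N`. -/
def Lat (φ : QF (ℝ ⊕ Fin d)) (e : ℝ → ℚ) (N : ℕ) : Type :=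
  {x : Fin d → ℚ // InS φ e x ∧ ∀ k, ∃ z : ℤ, (N : ℚ) * x k = z}

theorem lat_finite (h : Good φ P R w B e) {N : ℕ} (hN : 0 < N) : Finite (Lat φ e N) := by
  have hN' : (0 : ℚ) < N := by exact_mod_cast hN
  let f : Lat φ e N → (Fin d → ℤ) := fun x k => ⌊(N : ℚ) * x.1 k⌋
  have hf : ∀ x k, ((f x k : ℤ) : ℚ) = N * x.1 k := by
    intro x k
    obtain ⟨z, hz⟩ := x.2.2 k
    show ((⌊(N : ℚ) * x.1 k⌋ : ℤ) : ℚ) = N * x.1 k
    rw [hz, Int.floor_intCast]
  have hinj : Function.Injective f := by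
    intro x y hxy
    apply Subtype.ext
    funext k
    have h1 := hf x k
    rw [hxy, hf y k] at h1
    exact (mul_left_cancel₀ hN'.ne' h1).symm
  have hfin : (Set.pi Set.univ (fun _ : Fin d => Set.Icc (-⌈(N : ℚ) * B⌉) ⌈(N : ℚ) * B⌉)).Finite :=
    Set.Finite.pi fun _ => Set.finite_Icc _ _
  have hsub : ∀ x, f x ∈ (Set.pi Set.univ (fun _ : Fin d => Set.Icc (-⌈(N : ℚ) * B⌉) ⌈(N : ℚ) * B⌉)) := by
    intro x k _
    have h1 := h.bdd x.1 x.2.1 k
    rw [Rat.cast_id] at h1
    obtain ⟨h1, h2⟩ := h1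
    have h3 : (N : ℚ) * x.1 k ≤ N * B := by
      apply mul_le_mul_of_nonneg_left _ hN'.le; linarith
    have h4 : -((N : ℚ) * B) ≤ N * x.1 k := by
      rw [← mul_neg]
      apply mul_le_mul_of_nonneg_left _ hN'.le; linarith
    have h5 := Int.le_ceil ((N : ℚ) * B)
    constructor
    · have : ((-⌈(N : ℚ) * B⌉ : ℤ) : ℚ) ≤ (f x k : ℤ) := by
        rw [hf]; push_cast; linarith
      exact_mod_cast this
    · have : ((f x k : ℤ) : ℚ) ≤ ((⌈(N : ℚ) * B⌉ : ℤ) : ℚ) := by
        rw [hf]; linarith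
      exact_mod_cast this
  have := hfin.to_subtype
  exact Finite.of_injective (fun x => (⟨f x, hsub x⟩ :
    (Set.pi Set.univ (fun _ : Fin d => Set.Icc (-⌈(N : ℚ) * B⌉) ⌈(N : ℚ) * B⌉)))) fun x y hxy =>
      hinj (congrArg Subtype.val hxy)

theorem gr_unique (h : Good φ P R w B e) {i : Fin m} {x y y' : Fin d → ℚ} (h1 : Gr φ (P i) e x y)
    (h2 : Gr φ (P i) e x y') : y = y' := by
  obtain ⟨p, hp, hpx⟩ := h.cover i x h1.1
  funext k
  have a := h1.2.2 p hp hpx k
  have b := h2.2.2 p hp hpx k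
  linarith

theorem gr_lat (h : Good φ P R w B e) {N : ℕ}
    (hN : ∀ i, ∀ p ∈ P i, ∀ k, ∃ z : ℤ, (N : ℚ) * e (p.b k) = z) {i : Fin m} {x y : Fin d → ℚ}
    (h1 : Gr φ (P i) e x y) (hx : ∀ k, ∃ z : ℤ, (N : ℚ) * x k = z) :
    ∀ k, ∃ z : ℤ, (N : ℚ) * y k = z := by
  obtain ⟨p, hp, hpx⟩ := h.cover i x h1.1
  intro k
  choose zx hzx using hx
  obtain ⟨zb, hzb⟩ := hN i p hp k
  have a := h1.2.2 p hp hpx k
  refine ⟨∑ l, p.A k l * zx l + zb, ?_⟩
  have : y k = ∑ l, (p.A k l : ℚ) * x l + e (p.b k) := by linarith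
  rw [this, mul_add, hzb, Finset.mul_sum]
  push_cast
  congr 1
  refine Finset.sum_congr rfl fun l _ => ?_
  rw [← hzx l]; ring

theorem finite_action (h : Good φ P R w B e) : ∃ (L : Type) (_ : Finite L) (p : Fin m → Equiv.Perm L),
    (∀ r ∈ R, FreeGroup.lift p (FreeGroup.mk r) = 1) ∧ FreeGroup.lift p (FreeGroup.mk w) ≠ 1 := by
  obtain ⟨x0, y0, hw, hne⟩ := h.ne
  obtain ⟨N, hN0, hN⟩ := exists_denom (((List.finRange m).flatMap fun i => (P i).flatMap fun p =>
    (List.finRange d).map fun k => e (p.b k)) ++ (List.finRange d).map x0)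
  have hNb : ∀ i, ∀ p ∈ P i, ∀ k, ∃ z : ℤ, (N : ℚ) * e (p.b k) = z := by
    intro i p hp k
    apply hN
    rw [List.mem_append]; left
    rw [List.mem_flatMap]
    refine ⟨i, List.mem_finRange i, ?_⟩
    rw [List.mem_flatMap]
    refine ⟨p, hp, ?_⟩
    rw [List.mem_map]
    exact ⟨k, List.mem_finRange k, rfl⟩
  have hNx : ∀ k, ∃ z : ℤ, (N : ℚ) * x0 k = z := by
    intro k
    apply hN
    rw [List.mem_append]; right
    rw [List.mem_map]
    exact ⟨k, List.mem_finRange k, rfl⟩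
  have hfin := lat_finite h hN0
  -- the generators
  have hex : ∀ (i : Fin m) (x : Lat φ e N), ∃ y : Lat φ e N, Gr φ (P i) e x.1 y.1 := by
    intro i x
    obtain ⟨y, hy⟩ := h.total i x.1 x.2.1
    exact ⟨⟨y, hy.2.1, gr_lat h hNb hy x.2.2⟩, hy⟩
  choose f hf using hex
  have hinj : ∀ i, Function.Injective (f i) := by
    intro i x x' hxx
    apply Subtype.ext
    refine h.inj i x.1 x'.1 (f i x).1 (hf i x) ?_
    rw [hxx]; exact hf i x'
  let p : Fin m → Equiv.Perm (Lat φ e N) := fun i =>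
    Equiv.ofBijective (f i) (Finite.injective_iff_bijective.1 (hinj i))
  have hp : ∀ i x, Gr φ (P i) e x.1 (p i x).1 := fun i x => hf i x
  have hp' : ∀ i x, Gr φ (P i) e ((p i)⁻¹ x).1 x.1 := by
    intro i x
    have := hp i ((p i)⁻¹ x)
    have e1 : p i ((p i)⁻¹ x) = x := (p i).apply_symm_apply x
    rwa [e1] at this
  have hcons : ∀ (a : Fin m × Bool) (l : List (Fin m × Bool)),
      FreeGroup.lift p (FreeGroup.mk (a :: l)) =
        (cond a.2 (p a.1) (p a.1)⁻¹) * FreeGroup.lift p (FreeGroup.mk l) := by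
    intro a l
    rw [FreeGroup.lift_mk, FreeGroup.lift_mk, List.map_cons, List.prod_cons]
  have hA : ∀ (l : List (Fin m × Bool)) (x : Lat φ e N),
      Rel φ P e l x.1 (FreeGroup.lift p (FreeGroup.mk l) x).1 := by
    intro l
    induction l with
    | nil =>
      intro x
      rw [FreeGroup.lift_mk]
      exact ⟨x.2.1, rfl⟩
    | cons a l ih =>
      intro x
      rw [hcons]
      obtain ⟨i, b⟩ := a
      cases b with
      | true => exact ⟨_, ih x, hp i _⟩
      | false => exact ⟨_, ih x, hp' i _⟩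
  have hB : ∀ (l : List (Fin m × Bool)) (x : Lat φ e N) (y : Fin d → ℚ), Rel φ P e l x.1 y →
      y = (FreeGroup.lift p (FreeGroup.mk l) x).1 := by
    intro l
    induction l with
    | nil =>
      intro x y hy
      rw [FreeGroup.lift_mk]
      exact hy.2.symm
    | cons a l ih =>
      intro x y hy
      rw [hcons]
      obtain ⟨i, b⟩ := a
      cases b with
      | true =>
        obtain ⟨z, hz, hzy⟩ := hy
        have := ih x z hz
        subst this
        exact gr_unique h hzy (hp i _)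
      | false =>
        obtain ⟨z, hz, hzy⟩ := hy
        have := ih x z hz
        subst this
        exact h.inj i _ _ _ hzy (hp' i _)
  refine ⟨Lat φ e N, hfin, p, ?_, ?_⟩
  · intro r hr
    apply Equiv.ext
    intro x
    apply Subtype.ext
    exact (h.rel r hr _ _ (hA r x)).symm
  · intro h1
    have hx0 : InS φ e x0 := by
      clear hne hNx
      have key : ∀ (l : List (Fin m × Bool)) (x y : Fin d → ℚ), Rel φ P e l x y → InS φ e x := by
        intro l
        induction l with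
        | nil => intro x y hy; exact hy.1
        | cons a l ih =>
          intro x y hy
          obtain ⟨i, b⟩ := a
          cases b with
          | true => obtain ⟨z, hz, _⟩ := hy; exact ih x z hz
          | false => obtain ⟨z, hz, _⟩ := hy; exact ih x z hz
      exact key w x0 y0 hw
    have := hB w ⟨x0, hx0, hNx⟩ y0 hw
    rw [h1] at this
    exact hne this.symm

end rat

/-- `f` is a piecewise integral affine permutation of `D`: the set `D` is covered by finitely many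
semilinear sets on each of which `f` is a map `x ↦ A x + b` with an integral matrix `A` and a real
vector `b`. -/
def PIA (D : Set (Fin d → ℝ)) (f : Equiv.Perm D) : Prop :=
  ∃ (n : ℕ) (C : Fin n → Set (Fin d → ℝ)) (A : Fin n → Matrix (Fin d) (Fin d) ℤ)
    (b : Fin n → Fin d → ℝ), (∀ j, SL d (C j)) ∧ (∀ x : D, ∃ j, (x : Fin d → ℝ) ∈ C j) ∧
    ∀ (x : D) (j : Fin n), (x : Fin d → ℝ) ∈ C j →
      ∀ k, (f x : Fin d → ℝ) k = ∑ l, (A j k l : ℝ) * (x : Fin d → ℝ) l + b j k

/-- A nontrivial element of a finitely presented group acting by piecewise integral affine permutations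
of a bounded semilinear set survives in a finite quotient. -/
theorem separate {D : Set (Fin d → ℝ)} (hD : SL d D) (hb : Bornology.IsBounded D) {K : Type*} [Group K]
    [hK : Group.IsFinitelyPresented K] (φ : K →* Equiv.Perm D) (hφ : ∀ k, PIA D (φ k)) (k : K)
    (hk : φ k ≠ 1) : ∃ N : Subgroup K, N.Normal ∧ N.FiniteIndex ∧ k ∉ N := by
  classical
  obtain ⟨m, π, hπ, S, hS, hker⟩ := hK.out
  obtain ⟨v, rfl⟩ := hπ k
  obtain ⟨φD, hφD⟩ := hD.formula
  let g : Fin m → Equiv.Perm D := fun i => φ (π (FreeGroup.of i))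
  have hg : ∀ u, FreeGroup.lift g u = φ (π u) := by
    intro u
    have : FreeGroup.lift g = φ.comp π := by
      apply FreeGroup.ext_hom
      intro i
      simp [g]
    rw [this]; rfl
  -- pieces
  have hP : ∀ i : Fin m, ∃ P : List (Piece d), (∀ x : D, ∃ p ∈ P, InS p.C (id : ℝ → ℝ) x.1) ∧
      ∀ (x : D), ∀ p ∈ P, InS p.C (id : ℝ → ℝ) x.1 →
        ∀ k, (g i x : Fin d → ℝ) k = ∑ l, (p.A k l : ℝ) * (x : Fin d → ℝ) l + p.b k := by
    intro i
    obtain ⟨n, C, A, b, hC, hcov, hval⟩ := hφ (π (FreeGroup.of i))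
    choose F hF using fun j => (hC j).formula
    refine ⟨List.ofFn fun j => ⟨F j, A j, b j⟩, ?_, ?_⟩
    · intro x
      obtain ⟨j, hj⟩ := hcov x
      exact ⟨⟨F j, A j, b j⟩, (List.mem_ofFn' _ _).2 ⟨j, rfl⟩, (hF j _).1 hj⟩
    · intro x p hp hpx
      obtain ⟨j, rfl⟩ := (List.mem_ofFn' _ _).1 hp
      exact hval x j ((hF j _).2 hpx)
  choose P hPcov hPval using hP
  -- graphs
  have hgr : ∀ i x y, Gr φD (P i) (id : ℝ → ℝ) x y ↔ ∃ hx : x ∈ D, (g i ⟨x, hx⟩).1 = y := by
    intro i x y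
    constructor
    · rintro ⟨hx, hy, h⟩
      have hxD : x ∈ D := (hφD x).2 hx
      refine ⟨hxD, ?_⟩
      obtain ⟨p, hp, hpx⟩ := hPcov i ⟨x, hxD⟩
      funext k
      have h1 := h p hp hpx k
      have h2 := hPval i ⟨x, hxD⟩ p hp hpx k
      rw [h2]
      simp only [id] at h1
      linarith
    · rintro ⟨hx, rfl⟩
      refine ⟨(hφD x).1 hx, (hφD _).1 (g i ⟨x, hx⟩).2, ?_⟩
      intro p hp hpx k
      have h2 := hPval i ⟨x, hx⟩ p hp hpx k
      rw [h2]
      simp only [id]
      ring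
  have hcons : ∀ (a : Fin m × Bool) (l : List (Fin m × Bool)),
      FreeGroup.lift g (FreeGroup.mk (a :: l)) =
        (cond a.2 (g a.1) (g a.1)⁻¹) * FreeGroup.lift g (FreeGroup.mk l) := by
    intro a l
    rw [FreeGroup.lift_mk, FreeGroup.lift_mk, List.map_cons, List.prod_cons]
  have hrel : ∀ (l : List (Fin m × Bool)) (x y : Fin d → ℝ), Rel φD P (id : ℝ → ℝ) l x y ↔
      ∃ hx : x ∈ D, (FreeGroup.lift g (FreeGroup.mk l) ⟨x, hx⟩).1 = y := by
    intro l
    induction l with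
    | nil =>
      intro x y
      rw [FreeGroup.lift_mk]
      constructor
      · rintro ⟨hx, rfl⟩; exact ⟨(hφD x).2 hx, rfl⟩
      · rintro ⟨hx, rfl⟩; exact ⟨(hφD x).1 hx, rfl⟩
    | cons a l ih =>
      intro x y
      rw [hcons]
      obtain ⟨i, b⟩ := a
      cases b with
      | true =>
        constructor
        · rintro ⟨z, hz, hzy⟩
          obtain ⟨hx, rfl⟩ := (ih x z).1 hz
          obtain ⟨_, rfl⟩ := (hgr i _ _).1 hzy
          exact ⟨hx, rfl⟩
        · rintro ⟨hx, rfl⟩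
          exact ⟨_, (ih x _).2 ⟨hx, rfl⟩, (hgr i _ _).2 ⟨Subtype.property _, rfl⟩⟩
      | false =>
        constructor
        · rintro ⟨z, hz, hzy⟩
          obtain ⟨hx, rfl⟩ := (ih x z).1 hz
          obtain ⟨hy, hyz⟩ := (hgr i _ _).1 hzy
          refine ⟨hx, ?_⟩
          show ((g i)⁻¹ _).1 = y
          have : g i ⟨y, hy⟩ = FreeGroup.lift g (FreeGroup.mk l) ⟨x, hx⟩ := Subtype.ext hyz
          rw [← this]
          exact congrArg Subtype.val ((g i).symm_apply_apply ⟨y, hy⟩)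
        · rintro ⟨hx, rfl⟩
          refine ⟨_, (ih x _).2 ⟨hx, rfl⟩, (hgr i _ _).2 ⟨Subtype.property _, ?_⟩⟩
          show (g i ((g i)⁻¹ _)).1 = _
          exact congrArg Subtype.val ((g i).apply_symm_apply _)
  -- bound
  obtain ⟨B, hB⟩ : ∃ B : ℕ, ∀ x ∈ D, ∀ k, |x k| < B := by
    obtain ⟨C, hC⟩ := hb.exists_norm_le
    obtain ⟨B, hB⟩ := exists_nat_gt C
    refine ⟨B, fun x hx k => ?_⟩
    have h1 := hC x hx
    have h2 := norm_le_pi_norm x k
    rw [Real.norm_eq_abs] at h2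
    linarith
  -- the set of relators
  let R : List (List (Fin m × Bool)) := hS.toFinset.toList.map FreeGroup.toWord
  have hgood : Good φD P R v.toWord (B : ℚ) (id : ℝ → ℝ) := by
    refine ⟨?_, ?_, ?_, ?_, ?_, ?_⟩
    · intro i x hx
      exact hPcov i ⟨x, (hφD x).2 hx⟩
    · intro i x hx
      exact ⟨_, (hgr i _ _).2 ⟨(hφD x).2 hx, rfl⟩⟩
    · intro i x x' y h1 h2
      obtain ⟨hx, hxy⟩ := (hgr i _ _).1 h1
      obtain ⟨hx', hxy'⟩ := (hgr i _ _).1 h2
      have : g i ⟨x, hx⟩ = g i ⟨x', hx'⟩ := Subtype.ext (hxy.trans hxy'.symm)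
      exact congrArg Subtype.val ((g i).injective this)
    · intro r hr x y hxy
      obtain ⟨s, hs, rfl⟩ := List.mem_map.1 hr
      have hs' : s ∈ S := by simpa using hs
      obtain ⟨hx, hxy⟩ := (hrel _ _ _).1 hxy
      rw [FreeGroup.mk_toWord, hg] at hxy
      have : π s = 1 := by
        rw [← MonoidHom.mem_ker, ← hker]
        exact Subgroup.subset_normalClosure hs'
      rw [this, map_one] at hxy
      exact hxy
    · have : ∃ x, φ (π v) x ≠ x := by
        by_contra hcon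
        push Not at hcon
        exact hk (Equiv.ext hcon)
      obtain ⟨x, hx⟩ := this
      refine ⟨x.1, (φ (π v) x).1, (hrel _ _ _).2 ⟨x.2, ?_⟩, ?_⟩
      · rw [FreeGroup.mk_toWord, hg]
      · intro h1
        exact hx (Subtype.ext h1.symm)
    · intro x hx k
      have h1 := abs_lt.1 (hB x ((hφD x).2 hx) k)
      push_cast
      constructor <;> linarith [h1.1, h1.2]
  obtain ⟨e', he'⟩ := hgood.transfer
  obtain ⟨L, hL, p, hp, hpw⟩ := finite_action he'
  rw [FreeGroup.mk_toWord] at hpw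
  have hle : π.ker ≤ (FreeGroup.lift p).ker := by
    rw [← hker]
    apply Subgroup.normalClosure_le_normal
    intro s hs
    have := hp s.toWord (List.mem_map.2 ⟨s, by simpa using hs, rfl⟩)
    rw [FreeGroup.mk_toWord] at this
    exact this
  let Φ : K →* Equiv.Perm L := (π.liftOfSurjective hπ) ⟨FreeGroup.lift p, hle⟩
  have hΦ : ∀ u, Φ (π u) = FreeGroup.lift p u := by
    intro u
    exact π.liftOfRightInverse_comp_apply _ _ ⟨FreeGroup.lift p, hle⟩ u
  refine ⟨Φ.ker, inferInstance, inferInstance, ?_⟩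
  rw [MonoidHom.mem_ker, hΦ]
  exact hpw

end Pool.Agent.K6.H34.PA
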