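import Mathlib

/-!
# Quantifier elimination for linear formulas over ordered fields

Terms are affine combinations with rational coefficients of variables, formulas without quantifiers are
Boolean combinations of inequalities `0 < t`. Test point elimination of one existential quantifier, which is
uniform in the ordered field; so a statement with parameters in `ℝ` can be transferred to `ℚ`.
-/

set_option autoImplicit false

namespace Pool.Agent.K6.H34.PA

/-- Affine terms with rational coefficients. -/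
inductive Tm (ι : Type) : Type
  | var (i : ι) : Tm ι
  | const (c : ℚ) : Tm ι
  | add (s t : Tm ι) : Tm ι
  | smul (q : ℚ) (t : Tm ι) : Tm ι

namespace Tm

variable {ι κ : Type}

/-- Value of a term. -/
def ev {W : Type} [Field W] (x : ι → W) : Tm ι → W
  | var i => x i
  | const c => (c : W)
  | add s t => ev x s + ev x t
  | smul q t => (q : W) * ev x t

/-- Substitution. -/
def bind (σ : ι → Tm κ) : Tm ι → Tm κ
  | var i => σ i
  | const c => const c
  | add s t => add (bind σ s) (bind σ t)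
  | smul q t => smul q (bind σ t)

theorem ev_bind {W : Type} [Field W] (σ : ι → Tm κ) (x : κ → W) (t : Tm ι) :
    (t.bind σ).ev x = t.ev fun i => (σ i).ev x := by
  induction t with
  | var i => rfl
  | const c => rfl
  | add s t hs ht => simp only [bind, ev, hs, ht]
  | smul q t ht => simp only [bind, ev, ht]

/-- The coefficient of the variable `none`. -/
def cf : Tm (Option ι) → ℚ
  | var none => 1
  | var (some _) => 0
  | const _ => 0
  | add s t => cf s + cf t
  | smul q t => q * cf t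

/-- The part without the variable `none`. -/
def rest : Tm (Option ι) → Tm ι
  | var none => const 0
  | var (some i) => var i
  | const c => const c
  | add s t => add (rest s) (rest t)
  | smul q t => smul q (rest t)

/-- Variables that occur. -/
def vars [DecidableEq ι] : Tm ι → Finset ι
  | var i => {i}
  | const _ => ∅
  | add s t => vars s ∪ vars t
  | smul _ t => vars t

theorem ev_congr [DecidableEq ι] {W : Type} [Field W] (t : Tm ι) (x y : ι → W)
    (h : ∀ i ∈ t.vars, x i = y i) : t.ev x = t.ev y := by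
  induction t with
  | var i => exact h i (by simp [vars])
  | const c => rfl
  | add s t hs ht =>
    simp only [ev]
    rw [hs fun i hi => h i (by simp [vars, hi]), ht fun i hi => h i (by simp [vars, hi])]
  | smul q t ht =>
    simp only [ev]
    rw [ht fun i hi => h i (by simpa [vars] using hi)]

end Tm

/-- Add a value for `none`. -/
def opt {ι W : Type} (x : ι → W) (y : W) : Option ι → W := fun o => o.elim y x

theorem Tm.ev_opt {ι W : Type} [Field W] [CharZero W] (t : Tm (Option ι)) (x : ι → W) (y : W) :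
    t.ev (opt x y) = (t.cf : W) * y + t.rest.ev x := by
  induction t with
  | var i => cases i <;> simp [Tm.ev, Tm.cf, Tm.rest, opt]
  | const c => simp [Tm.ev, Tm.cf, Tm.rest]
  | add s t hs ht => simp only [Tm.ev, Tm.cf, Tm.rest, hs, ht]; push_cast; ring
  | smul q t ht => simp only [Tm.ev, Tm.cf, Tm.rest, ht]; push_cast; ring

/-- Formulas without quantifiers. -/
inductive QF (ι : Type) : Type
  | pos (t : Tm ι) : QF ι
  | neg (φ : QF ι) : QF ι
  | and (φ ψ : QF ι) : QF ι

namespace QF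

variable {ι κ : Type}

/-- Truth of a formula. -/
def ev {W : Type} [Field W] [LinearOrder W] (x : ι → W) : QF ι → Prop
  | pos t => 0 < t.ev x
  | neg φ => ¬ ev x φ
  | and φ ψ => ev x φ ∧ ev x ψ

/-- Substitution. -/
def bind (σ : ι → Tm κ) : QF ι → QF κ
  | pos t => pos (t.bind σ)
  | neg φ => neg (bind σ φ)
  | and φ ψ => and (bind σ φ) (bind σ ψ)

theorem ev_bind {W : Type} [Field W] [LinearOrder W] (σ : ι → Tm κ) (x : κ → W) (φ : QF ι) :
    (φ.bind σ).ev x ↔ φ.ev fun i => (σ i).ev x := by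
  induction φ with
  | pos t => simp only [bind, ev, Tm.ev_bind]
  | neg φ h => simp only [bind, ev, h]
  | and φ ψ h h' => simp only [bind, ev, h, h']

/-- Renaming of variables. -/
def map (f : ι → κ) (φ : QF ι) : QF κ := φ.bind fun i => Tm.var (f i)

theorem ev_map {W : Type} [Field W] [LinearOrder W] (f : ι → κ) (x : κ → W) (φ : QF ι) :
    (φ.map f).ev x ↔ φ.ev (x ∘ f) := ev_bind _ _ _

/-- Variables that occur. -/
def vars [DecidableEq ι] : QF ι → Finset ι
  | pos t => t.vars
  | neg φ => vars φ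
  | and φ ψ => vars φ ∪ vars ψ

theorem ev_congr [DecidableEq ι] {W : Type} [Field W] [LinearOrder W] (φ : QF ι) (x y : ι → W)
    (h : ∀ i ∈ φ.vars, x i = y i) : φ.ev x ↔ φ.ev y := by
  induction φ with
  | pos t => simp only [ev]; rw [t.ev_congr x y h]
  | neg φ ih => simp only [ev]; rw [ih h]
  | and φ ψ hφ hψ =>
    simp only [ev]
    rw [hφ fun i hi => h i (by simp [vars, hi]), hψ fun i hi => h i (by simp [vars, hi])]

/-- The false formula. -/
def fls : QF ι := pos (Tm.const 0)

@[simp] theorem ev_fls {W : Type} [Field W] [LinearOrder W] (x : ι → W) : (fls : QF ι).ev x ↔ False := by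
  simp [fls, ev, Tm.ev]

@[simp] theorem ev_neg {W : Type} [Field W] [LinearOrder W] (x : ι → W) (φ : QF ι) :
    (neg φ).ev x ↔ ¬ φ.ev x := Iff.rfl

@[simp] theorem ev_and {W : Type} [Field W] [LinearOrder W] (x : ι → W) (φ ψ : QF ι) :
    (and φ ψ).ev x ↔ φ.ev x ∧ ψ.ev x := Iff.rfl

/-- Disjunction. -/
def or (φ ψ : QF ι) : QF ι := neg (and (neg φ) (neg ψ))

@[simp] theorem ev_or {W : Type} [Field W] [LinearOrder W] (x : ι → W) (φ ψ : QF ι) :
    (or φ ψ).ev x ↔ φ.ev x ∨ ψ.ev x := by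
  simp only [or, ev_neg, ev_and]; tauto

/-- Implication. -/
def imp (φ ψ : QF ι) : QF ι := neg (and φ (neg ψ))

@[simp] theorem ev_imp {W : Type} [Field W] [LinearOrder W] (x : ι → W) (φ ψ : QF ι) :
    (imp φ ψ).ev x ↔ (φ.ev x → ψ.ev x) := by
  simp only [imp, ev_neg, ev_and]; tauto

/-- Finite disjunction. -/
def bigOr : List (QF ι) → QF ι
  | [] => fls
  | φ :: l => or φ (bigOr l)

@[simp] theorem ev_bigOr {W : Type} [Field W] [LinearOrder W] (x : ι → W) (l : List (QF ι)) :
    (bigOr l).ev x ↔ ∃ φ ∈ l, φ.ev x := by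
  induction l with
  | nil => simp [bigOr]
  | cons φ l ih => simp [bigOr, ih]

/-- Finite conjunction. -/
def bigAnd : List (QF ι) → QF ι
  | [] => neg fls
  | φ :: l => and φ (bigAnd l)

@[simp] theorem ev_bigAnd {W : Type} [Field W] [LinearOrder W] (x : ι → W) (l : List (QF ι)) :
    (bigAnd l).ev x ↔ ∀ φ ∈ l, φ.ev x := by
  induction l with
  | nil => simp [bigAnd]
  | cons φ l ih => simp [bigAnd, ih]

/-- The roots of the atoms that contain the variable `none`. -/
def roots : QF (Option ι) → List (Tm ι)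
  | pos t => if t.cf = 0 then [] else [Tm.smul (-1 / t.cf) t.rest]
  | neg φ => roots φ
  | and φ ψ => roots φ ++ roots ψ

theorem ev_cut {W : Type} [Field W] [LinearOrder W] [IsStrictOrderedRing W] (φ : QF (Option ι))
    (x : ι → W) (y z : W)
    (h : ∀ ρ ∈ φ.roots, (y < ρ.ev x ↔ z < ρ.ev x) ∧ (ρ.ev x < y ↔ ρ.ev x < z)) :
    φ.ev (opt x y) ↔ φ.ev (opt x z) := by
  induction φ with
  | pos t =>
    simp only [ev, Tm.ev_opt]
    by_cases hc : t.cf = 0
    · simp [hc]
    · have hρ := h (Tm.smul (-1 / t.cf) t.rest) (by simp [roots, hc])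
      simp only [Tm.ev] at hρ
      have hc' : (t.cf : W) ≠ 0 := by exact_mod_cast hc
      have key : ∀ u : W, (t.cf : W) * u + t.rest.ev x =
          (t.cf : W) * (u - ((-1 / t.cf : ℚ) : W) * t.rest.ev x) := by
        intro u; push_cast; field_simp; ring
      rw [key y, key z]
      rcases lt_or_gt_of_ne hc with hneg | hpos
      · have hneg' : (t.cf : W) < 0 := by exact_mod_cast hneg
        have e1 : ∀ u : W, 0 < (t.cf : W) * (u - ((-1 / t.cf : ℚ) : W) * t.rest.ev x) ↔
            u < ((-1 / t.cf : ℚ) : W) * t.rest.ev x := by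
          intro u
          constructor
          · intro h0
            by_contra h1
            push Not at h1
            have := mul_nonpos_of_nonpos_of_nonneg hneg'.le (sub_nonneg.2 h1)
            exact absurd h0 (not_lt.2 this)
          · intro h0
            exact mul_pos_of_neg_of_neg hneg' (sub_neg.2 h0)
        rw [e1, e1]
        exact hρ.1
      · have hpos' : 0 < (t.cf : W) := by exact_mod_cast hpos
        have e1 : ∀ u : W, 0 < (t.cf : W) * (u - ((-1 / t.cf : ℚ) : W) * t.rest.ev x) ↔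
            ((-1 / t.cf : ℚ) : W) * t.rest.ev x < u := by
          intro u
          rw [mul_pos_iff_of_pos_left hpos', sub_pos]
        rw [e1, e1]
        exact hρ.2
  | neg φ ih => simp only [ev]; rw [ih h]
  | and φ ψ hφ hψ =>
    simp only [ev]
    rw [hφ fun ρ hρ => h ρ (by simp [roots, hρ]), hψ fun ρ hρ => h ρ (by simp [roots, hρ])]

/-- Test terms of a list of roots. -/
def tests (L : List (Tm ι)) : List (Tm ι) :=
  Tm.const 0 :: (L.flatMap fun s =>
    Tm.add s (Tm.const (-1)) :: Tm.add s (Tm.const 1) :: L.map fun t => Tm.smul (1 / 2) (Tm.add s t))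

theorem exists_test {W : Type} [Field W] [LinearOrder W] [IsStrictOrderedRing W] (L : List (Tm ι))
    (x : ι → W) (y : W) :
    ∃ τ ∈ tests L, ∀ ρ ∈ L, (y < ρ.ev x ↔ τ.ev x < ρ.ev x) ∧ (ρ.ev x < y ↔ ρ.ev x < τ.ev x) := by
  classical
  by_cases hy : ∃ ρ ∈ L, ρ.ev x = y
  · obtain ⟨ρ, hρ, rfl⟩ := hy
    refine ⟨Tm.smul (1 / 2) (Tm.add ρ ρ), ?_, ?_⟩
    · simp only [tests, List.mem_cons, List.mem_flatMap, List.mem_map]
      exact Or.inr ⟨ρ, hρ, Or.inr (Or.inr ⟨ρ, hρ, rfl⟩)⟩
    · intro σ _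
      have : (Tm.smul (1 / 2) (Tm.add ρ ρ)).ev x = ρ.ev x := by
        simp only [Tm.ev]; push_cast; ring
      rw [this]
      exact ⟨Iff.rfl, Iff.rfl⟩
  push Not at hy
  set U := L.filter fun ρ => y < ρ.ev x with hU
  set B := L.filter fun ρ => ρ.ev x < y with hB
  have hsplit : ∀ ρ ∈ L, ρ ∈ U ∨ ρ ∈ B := by
    intro ρ hρ
    rcases lt_trichotomy y (ρ.ev x) with h | h | h
    · left; rw [hU]; simp [hρ, h]
    · exact absurd h.symm (hy ρ hρ)
    · right; rw [hB]; simp [hρ, h]
  have hUm : ∀ ρ, ρ ∈ U ↔ ρ ∈ L ∧ y < ρ.ev x := by intro ρ; rw [hU]; simp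
  have hBm : ∀ ρ, ρ ∈ B ↔ ρ ∈ L ∧ ρ.ev x < y := by intro ρ; rw [hB]; simp
  -- least element above and greatest element below
  have hmin : U ≠ [] → ∃ u ∈ U, ∀ ρ ∈ U, u.ev x ≤ ρ.ev x := by
    intro hne
    obtain ⟨u, hu⟩ := List.exists_mem_of_ne_nil U hne
    obtain ⟨m, hm, hm'⟩ := Finset.exists_min_image (U.toFinset.image fun ρ => ρ.ev x) id
      ⟨u.ev x, by simpa using ⟨u, hu, rfl⟩⟩
    simp only [Finset.mem_image, List.mem_toFinset] at hm
    obtain ⟨v, hv, rfl⟩ := hm
    exact ⟨v, hv, fun ρ hρ => hm' _ (by simpa using ⟨ρ, hρ, rfl⟩)⟩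
  have hmax : B ≠ [] → ∃ u ∈ B, ∀ ρ ∈ B, ρ.ev x ≤ u.ev x := by
    intro hne
    obtain ⟨u, hu⟩ := List.exists_mem_of_ne_nil B hne
    obtain ⟨m, hm, hm'⟩ := Finset.exists_max_image (B.toFinset.image fun ρ => ρ.ev x) id
      ⟨u.ev x, by simpa using ⟨u, hu, rfl⟩⟩
    simp only [Finset.mem_image, List.mem_toFinset] at hm
    obtain ⟨v, hv, rfl⟩ := hm
    exact ⟨v, hv, fun ρ hρ => hm' _ (by simpa using ⟨ρ, hρ, rfl⟩)⟩
  -- it is enough to separate
  have main : ∀ τ ∈ tests L, (∀ ρ ∈ U, τ.ev x < ρ.ev x) → (∀ ρ ∈ B, ρ.ev x < τ.ev x) →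
      ∃ τ ∈ tests L, ∀ ρ ∈ L, (y < ρ.ev x ↔ τ.ev x < ρ.ev x) ∧ (ρ.ev x < y ↔ ρ.ev x < τ.ev x) := by
    intro τ hτ h1 h2
    refine ⟨τ, hτ, fun ρ hρ => ?_⟩
    rcases hsplit ρ hρ with h | h
    · have h3 := h1 ρ h
      have h4 := ((hUm ρ).1 h).2
      exact ⟨⟨fun _ => h3, fun _ => h4⟩, ⟨fun h5 => absurd h5 h4.not_gt, fun h5 => absurd h5 h3.not_gt⟩⟩
    · have h3 := h2 ρ h
      have h4 := ((hBm ρ).1 h).2
      exact ⟨⟨fun h5 => absurd h5 h4.not_gt, fun h5 => absurd h5 h3.not_gt⟩, ⟨fun _ => h3, fun _ => h4⟩⟩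
  by_cases hU0 : U = []
  · by_cases hB0 : B = []
    · exact main (Tm.const 0) (by simp [tests]) (by rw [hU0]; simp) (by rw [hB0]; simp)
    · obtain ⟨b, hb, hbm⟩ := hmax hB0
      refine main (Tm.add b (Tm.const 1)) ?_ (by rw [hU0]; simp) ?_
      · simp only [tests, List.mem_cons, List.mem_flatMap, List.mem_map]
        exact Or.inr ⟨b, ((hBm b).1 hb).1, Or.inr (Or.inl rfl)⟩
      · intro ρ hρ
        have := hbm ρ hρ
        simp only [Tm.ev]; push_cast; linarith
  · obtain ⟨u, hu, hum⟩ := hmin hU0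
    by_cases hB0 : B = []
    · refine main (Tm.add u (Tm.const (-1))) ?_ ?_ (by rw [hB0]; simp)
      · simp only [tests, List.mem_cons, List.mem_flatMap, List.mem_map]
        exact Or.inr ⟨u, ((hUm u).1 hu).1, Or.inl rfl⟩
      · intro ρ hρ
        have := hum ρ hρ
        simp only [Tm.ev]; push_cast; linarith
    · obtain ⟨b, hb, hbm⟩ := hmax hB0
      have hbu : b.ev x < u.ev x := lt_trans ((hBm b).1 hb).2 ((hUm u).1 hu).2
      have e : (Tm.smul (1 / 2) (Tm.add u b)).ev x = (u.ev x + b.ev x) / 2 := by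
        simp only [Tm.ev]; push_cast; ring
      refine main (Tm.smul (1 / 2) (Tm.add u b)) ?_ ?_ ?_
      · simp only [tests, List.mem_cons, List.mem_flatMap, List.mem_map]
        exact Or.inr ⟨u, ((hUm u).1 hu).1, Or.inr (Or.inr ⟨b, ((hBm b).1 hb).1, rfl⟩)⟩
      · intro ρ hρ
        have := hum ρ hρ
        rw [e]; linarith
      · intro ρ hρ
        have := hbm ρ hρ
        rw [e]; linarith

/-- Substitute a term for the variable `none`. -/
def inst (τ : Tm ι) : Option ι → Tm ι := fun o => o.elim τ Tm.var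

theorem ev_inst {W : Type} [Field W] [LinearOrder W] (φ : QF (Option ι)) (τ : Tm ι) (x : ι → W) :
    (φ.bind (inst τ)).ev x ↔ φ.ev (opt x (τ.ev x)) := by
  rw [ev_bind]
  have : (fun i => (inst τ i).ev x) = opt x (τ.ev x) := by
    funext i; cases i <;> rfl
  rw [this]

/-- Elimination of one existential quantifier. -/
def elim (φ : QF (Option ι)) : QF ι := bigOr ((tests φ.roots).map fun τ => φ.bind (inst τ))

theorem ev_elim {W : Type} [Field W] [LinearOrder W] [IsStrictOrderedRing W] (φ : QF (Option ι))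
    (x : ι → W) : φ.elim.ev x ↔ ∃ y, φ.ev (opt x y) := by
  simp only [elim, ev_bigOr, List.mem_map]
  constructor
  · rintro ⟨_, ⟨τ, _, rfl⟩, h⟩
    exact ⟨_, (ev_inst φ τ x).1 h⟩
  · rintro ⟨y, hy⟩
    obtain ⟨τ, hτ, h⟩ := exists_test φ.roots x y
    exact ⟨_, ⟨τ, hτ, rfl⟩, (ev_inst φ τ x).2 ((ev_cut φ x y (τ.ev x) h).1 hy)⟩

/-- Elimination of a block of existential quantifiers. -/
theorem exists_fin (k : ℕ) : ∀ {ι : Type} (φ : QF (ι ⊕ Fin k)), ∃ ψ : QF ι,
    ∀ (W : Type) [Field W] [LinearOrder W] [IsStrictOrderedRing W] (x : ι → W),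
      ψ.ev x ↔ ∃ y : Fin k → W, φ.ev (Sum.elim x y) := by
  induction k with
  | zero =>
    intro ι φ
    refine ⟨φ.bind (Sum.elim Tm.var fun i => i.elim0), fun W _ _ _ x => ?_⟩
    rw [ev_bind]
    have e : ∀ y : Fin 0 → W, (fun i => ((Sum.elim Tm.var (fun i : Fin 0 => i.elim0) : ι ⊕ Fin 0 → Tm ι) i).ev x)
        = Sum.elim x y := by
      intro y; funext i
      rcases i with i | i
      · rfl
      · exact i.elim0
    constructor
    · intro h; exact ⟨fun i => i.elim0, by rw [← e]; exact h⟩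
    · rintro ⟨y, hy⟩; rw [e y]; exact hy
  | succ k ih =>
    intro ι φ
    let f : ι ⊕ Fin (k + 1) → Option ι ⊕ Fin k :=
      Sum.elim (fun i => Sum.inl (some i)) (fun j => Fin.cases (Sum.inl none) Sum.inr j)
    obtain ⟨ψ, hψ⟩ := ih (φ.map f)
    refine ⟨ψ.elim, fun W _ _ _ x => ?_⟩
    rw [ev_elim]
    have e : ∀ (y : W) (z : Fin k → W), (Sum.elim (opt x y) z) ∘ f = Sum.elim x (Fin.cons y z) := by
      intro y z; funext i
      rcases i with i | j
      · rfl
      · refine Fin.cases ?_ (fun j => ?_) j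
        · rfl
        · rfl
    constructor
    · rintro ⟨y, hy⟩
      obtain ⟨z, hz⟩ := (hψ W _).1 hy
      rw [ev_map, e] at hz
      exact ⟨_, hz⟩
    · rintro ⟨y, hy⟩
      refine ⟨y 0, (hψ W _).2 ⟨fun j => y j.succ, ?_⟩⟩
      rw [ev_map, e]
      have : (Fin.cons (y 0) fun j : Fin k => y j.succ : Fin (k + 1) → W) = y := by
        funext j; refine Fin.cases rfl (fun j => rfl) j
      rw [this]; exact hy

theorem ground_tm (t : Tm Empty) (x : Empty → ℝ) (y : Empty → ℚ) : t.ev x = ((t.ev y : ℚ) : ℝ) := by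
  induction t with
  | var i => exact i.elim
  | const c => simp [Tm.ev]
  | add s t hs ht => simp [Tm.ev, hs, ht]
  | smul q t ht => simp [Tm.ev, ht]

theorem ground (φ : QF Empty) (x : Empty → ℝ) (y : Empty → ℚ) : φ.ev x ↔ φ.ev y := by
  induction φ with
  | pos t => simp only [ev]; rw [ground_tm t x y]; exact_mod_cast Iff.rfl
  | neg φ ih => simp only [ev, ih]
  | and φ ψ h1 h2 => simp only [ev, h1, h2]

/-- **Transfer.** A formula satisfied by real parameters is satisfied by rational parameters. -/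
theorem exists_rat {ι : Type} (φ : QF ι) (x : ι → ℝ) (h : φ.ev x) : ∃ y : ι → ℚ, φ.ev y := by
  classical
  let s := φ.vars
  let e : s ≃ Fin s.card := s.equivFin
  let σ : ι → Tm (Empty ⊕ Fin s.card) := fun i =>
    if hi : i ∈ s then Tm.var (Sum.inr (e ⟨i, hi⟩)) else Tm.const 0
  obtain ⟨ψ, hψ⟩ := exists_fin s.card (φ.bind σ)
  have h1 : ψ.ev (fun i : Empty => (i.elim : ℝ)) := by
    rw [hψ ℝ]
    refine ⟨fun j => x (e.symm j), ?_⟩
    rw [ev_bind]
    refine (ev_congr φ _ _ fun i hi => ?_).2 h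
    have hi' : i ∈ s := hi
    simp [σ, hi', Tm.ev]
  rw [ground ψ _ (fun i : Empty => (i.elim : ℚ)), hψ ℚ] at h1
  obtain ⟨y, hy⟩ := h1
  rw [ev_bind] at hy
  exact ⟨_, hy⟩

end QF

end Pool.Agent.K6.H34.PA
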